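import Pool.Agent.WanRH.Main
import Pool.Agent.WanRH.Rational

/-!
# The `p`-adic Wan-Riemann hypothesis for `ℤ_p`-towers of curves

For every `ℤ_p`-tower of curves over a finite field of characteristic `p` with finite
ramification locus, the degree over `ℚ_p` of the splitting field of the numerator `P(X_n,s)` of
the zeta function of the `n`-th curve tends to infinity; in fact it is at least `c p^n` for all
large `n`, with a constant `c > 0` depending on the tower. The existence of the numerators
(rationality of the zeta functions) is also proved.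
-/

namespace Pool.Agent.Results.MP_9f6d45_nt.PadicWanRH

open Pool.Agent.WanRH Filter

universe u v w

/-- **Affirmative answer to Q1 (Wan).** -/
theorem result {p : ℕ} [Fact p.Prime] {k : Type u} {K : Type v} {Ω : Type w}
    [Field k] [Finite k] [CharP k p] [Field K] [Algebra k K] [IsFunctionField k K]
    [Field Ω] [Algebra k Ω] [Algebra K Ω] [IsScalarTower k K Ω]
    (𝒯 : ZpTower p k K Ω) (hS : 𝒯.ramLocus.Finite) :
    (∀ n, ∃! P : Polynomial ℤ, 𝒯.IsNumerator n P) ∧
    ∀ P : ℕ → Polynomial ℤ, (∀ n, 𝒯.IsNumerator n (P n)) →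
      Tendsto (fun n => splitDeg p (P n)) atTop atTop ∧
      ∃ c : ℝ, 0 < c ∧ ∀ᶠ n in atTop, c * (p : ℝ) ^ n ≤ splitDeg p (P n) := by
  constructor
  · intro n
    have hfr : Module.finrank K (𝒯.level n) = p ^ n := (𝒯.cyclic n).2.2
    have hfd : FiniteDimensional K (𝒯.level n) :=
      FiniteDimensional.of_finrank_pos
        (by rw [hfr]; exact pow_pos (Fact.out : p.Prime).pos n)
    have hff : IsFunctionField k (𝒯.level n) :=
      isFunctionField_of_finite k K (𝒯.level n) (𝒯.const n)
    obtain ⟨P, hP⟩ := exists_numerator k (𝒯.level n)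
    refine ⟨P, hP, fun P' hP' => ?_⟩
    apply Polynomial.coe_injective ℤ
    exact Eq.trans hP' (Eq.symm hP)
  intro P hP
  obtain ⟨c, hc, n₀, h⟩ := Pool.Agent.WanRH.main 𝒯 hS P hP
  change ∀ n, n₀ ≤ n → p ^ n ≤ c * splitDeg p (P n) at h
  constructor
  · have hp : 2 ≤ p := (Fact.out : p.Prime).two_le
    refine tendsto_atTop.mpr fun b => ?_
    filter_upwards [eventually_ge_atTop n₀, eventually_ge_atTop (c * b)] with n hn hb
    have h1 := h n hn
    have h2 : n < p ^ n := Nat.lt_pow_self (by omega)
    have h3 : c * b ≤ c * splitDeg p (P n) := by omega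
    exact Nat.le_of_mul_le_mul_left h3 hc
  · have hc' : (0 : ℝ) < c := by exact_mod_cast hc
    refine ⟨1 / c, by positivity, ?_⟩
    filter_upwards [eventually_ge_atTop n₀] with n hn
    rw [one_div, inv_mul_le_iff₀ hc']
    exact_mod_cast h n hn

end Pool.Agent.Results.MP_9f6d45_nt.PadicWanRH
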